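import Pool.Agent.Horrocks.Defs

/-! Matrices acting on tuples of elements of a module, cycles of a complex of free modules with
coefficients in a module, and the effect of dividing by a regular element which acts
null-homotopically. -/

set_option autoImplicit false

namespace ACI29

open Matrix

section act

variable {S : Type*} [CommRing S] (N : Type*) [AddCommGroup N] [Module S N]
variable {N' : Type*} [AddCommGroup N'] [Module S N'] {a b c : ℕ}

/-- The action of a matrix on tuples with entries in a module. -/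
def act (D : Matrix (Fin b) (Fin a) S) : (Fin a → N) →ₗ[S] (Fin b → N) :=
  LinearMap.pi fun i => ∑ j, D i j • LinearMap.proj j

lemma act_apply (D : Matrix (Fin b) (Fin a) S) (y : Fin a → N) (i : Fin b) :
    act N D y i = ∑ j, D i j • y j := by
  simp [act]

lemma act_mul (D : Matrix (Fin c) (Fin b) S) (E : Matrix (Fin b) (Fin a) S) (y : Fin a → N) :
    act N (D * E) y = act N D (act N E y) := by
  funext i
  simp only [act_apply, Matrix.mul_apply, Finset.sum_smul, Finset.smul_sum, smul_smul]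
  exact Finset.sum_comm

lemma act_add (D E : Matrix (Fin b) (Fin a) S) (y : Fin a → N) :
    act N (D + E) y = act N D y + act N E y := by
  funext i
  simp only [act_apply, Matrix.add_apply, add_smul, Finset.sum_add_distrib, Pi.add_apply]

lemma act_zero (y : Fin a → N) : act N (0 : Matrix (Fin b) (Fin a) S) y = 0 := by
  funext i
  simp [act_apply]

lemma act_smul_one (x : S) (y : Fin a → N) :
    act N (x • (1 : Matrix (Fin a) (Fin a) S)) y = x • y := by
  funext i
  rw [act_apply, Finset.sum_eq_single i]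
  · simp
  · intro j _ hj
    simp [Matrix.one_apply_ne (Ne.symm hj)]
  · intro h
    exact absurd (Finset.mem_univ i) h

/-- Naturality in the module. -/
lemma act_comp (q : N →ₗ[S] N') (D : Matrix (Fin b) (Fin a) S) (y : Fin a → N) :
    act N' D (fun j => q (y j)) = fun i => q (act N D y i) := by
  funext i
  simp [act_apply, map_sum]

end act

section fac

variable {S : Type*} [CommRing S] {A B C : Type*} [AddCommGroup A] [Module S A]
  [AddCommGroup B] [Module S B] [AddCommGroup C] [Module S C]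

lemma exists_factor (p : A →ₗ[S] B) (hp : Function.Surjective p) (θ : A →ₗ[S] C)
    (h : ∀ a, p a = 0 → θ a = 0) : ∃ θ' : B →ₗ[S] C, ∀ a, θ' (p a) = θ a := by
  have h1 : LinearMap.ker p ≤ LinearMap.ker θ := fun a ha => h a ha
  refine ⟨((LinearMap.ker p).liftQ θ h1) ∘ₗ
    (p.quotKerEquivOfSurjective hp).symm.toLinearMap, fun a => ?_⟩
  have h2 : (p.quotKerEquivOfSurjective hp).symm (p a) = Submodule.Quotient.mk a := by
    rw [LinearEquiv.symm_apply_eq]
    rfl
  rw [LinearMap.comp_apply, LinearEquiv.coe_coe, h2]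
  rfl

lemma exists_div (f : A →ₗ[S] C) (e : B →ₗ[S] C) (he : Function.Injective e)
    (h : ∀ a, ∃ b, e b = f a) : ∃ u : A →ₗ[S] B, ∀ a, e (u a) = f a := by
  choose u hu using h
  refine ⟨{ toFun := u, map_add' := fun x y => he ?_, map_smul' := fun r x => he ?_ }, hu⟩
  · rw [hu, map_add, map_add, hu, hu]
  · rw [hu, map_smul, RingHom.id_apply, map_smul, hu]

end fac

section cx

variable {S : Type*} [CommRing S] (rk : ℕ → ℕ)
  (D : (i : ℕ) → Matrix (Fin (rk i)) (Fin (rk (i + 1))) S)
  (N : Type*) [AddCommGroup N] [Module S N]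

/-- Cycles with coefficients in `N`. -/
def Zc : (i : ℕ) → Submodule S (Fin (rk i) → N)
  | 0 => ⊤
  | i + 1 => LinearMap.ker (act N (D i))

/-- `K` is a quotient of the homology in degree `i` with coefficients in `N`. -/
def Qt (i : ℕ) (K : Type*) [AddCommGroup K] [Module S K] : Prop :=
  ∃ φ : ↥(Zc rk D N i) →ₗ[S] K, Function.Surjective φ ∧
    ∀ z : ↥(Zc rk D N i), (∃ y, act N (D i) y = z.1) → φ z = 0

variable {rk D N}

lemma act_mem_Zc (hD : ∀ i, D i * D (i + 1) = 0) (i : ℕ) (y : Fin (rk (i + 1)) → N) :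
    act N (D i) y ∈ Zc rk D N i := by
  cases i with
  | zero => trivial
  | succ i =>
    change act N (D i) (act N (D (i + 1)) y) = 0
    rw [← act_mul, hD, act_zero]

/-- Replacing the quotient by an isomorphic one, or by a quotient of it. -/
lemma Qt.map {i : ℕ} {K : Type*} [AddCommGroup K] [Module S K] {K' : Type*} [AddCommGroup K']
    [Module S K'] (h : Qt rk D N i K) (e : K →ₗ[S] K') (he : Function.Surjective e) :
    Qt rk D N i K' := by
  obtain ⟨φ, h1, h2⟩ := h
  refine ⟨e ∘ₗ φ, he.comp h1, fun z hz => ?_⟩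
  rw [LinearMap.comp_apply, h2 z hz, map_zero]

/-- Replacing the coefficients by isomorphic ones. -/
lemma Qt.equiv {i : ℕ} {K : Type*} [AddCommGroup K] [Module S K] {N' : Type*} [AddCommGroup N']
    [Module S N'] (h : Qt rk D N i K) (e : N' ≃ₗ[S] N) : Qt rk D N' i K := by
  obtain ⟨φ, h1, h2⟩ := h
  have hmem : ∀ z ∈ Zc rk D N' i, e.toLinearMap.compLeft (Fin (rk i)) z ∈ Zc rk D N i := by
    intro z hz
    cases i with
    | zero => trivial
    | succ i =>
      change act N (D i) (fun j => e.toLinearMap (z j)) = 0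
      rw [act_comp, show act N' (D i) z = 0 from hz]
      funext j
      simp
  have hmem' : ∀ z ∈ Zc rk D N i, e.symm.toLinearMap.compLeft (Fin (rk i)) z ∈ Zc rk D N' i := by
    intro z hz
    cases i with
    | zero => trivial
    | succ i =>
      change act N' (D i) (fun j => e.symm.toLinearMap (z j)) = 0
      rw [act_comp, show act N (D i) z = 0 from hz]
      funext j
      simp
  refine ⟨φ ∘ₗ (e.toLinearMap.compLeft (Fin (rk i))).restrict hmem, ?_, ?_⟩
  · intro x
    obtain ⟨z, rfl⟩ := h1 x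
    refine ⟨⟨e.symm.toLinearMap.compLeft (Fin (rk i)) z.1, hmem' z.1 z.2⟩, ?_⟩
    rw [LinearMap.comp_apply]
    congr 1
    apply Subtype.ext
    funext j
    simp
  · rintro z ⟨y, hy⟩
    rw [LinearMap.comp_apply]
    refine h2 _ ⟨fun j => e.toLinearMap (y j), ?_⟩
    rw [act_comp, hy]
    rfl

/-- A null-homotopy of the multiplication by `x`. -/
structure Htpy (rk : ℕ → ℕ) (D : (i : ℕ) → Matrix (Fin (rk i)) (Fin (rk (i + 1))) S) (x : S) where
  T : (i : ℕ) → Matrix (Fin (rk (i + 1))) (Fin (rk i)) S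
  zero : D 0 * T 0 = x • 1
  succ : ∀ i, D (i + 1) * T (i + 1) + T i * D i = x • 1

variable {x : S}

lemma Htpy.of_mem (H : Htpy rk D x) (i : ℕ) (u : Fin (rk i) → N)
    (hu : u ∈ Zc rk D N i) : act N (D i) (act N (H.T i) u) = x • u := by
  cases i with
  | zero => rw [← act_mul, H.zero, act_smul_one]
  | succ i =>
    have h1 := act_smul_one N x u
    rw [← H.succ i, act_add, act_mul, act_mul, show act N (D i) u = 0 from hu, map_zero, add_zero]
      at h1
    exact h1

lemma compLeft_surjective {N' : Type*} [AddCommGroup N'] [Module S N'] {q : N →ₗ[S] N'}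
    (hq : Function.Surjective q) (n : ℕ) : Function.Surjective (q.compLeft (Fin n)) := by
  intro z
  choose y hy using fun j => hq (z j)
  exact ⟨y, funext hy⟩

/-- The degree zero part of the step. -/
lemma Qt.step_zero (H : Htpy rk D x)
    {N' : Type*} [AddCommGroup N'] [Module S N'] (q : N →ₗ[S] N') (hq : Function.Surjective q)
    (hker : ∀ n, q n = 0 → ∃ n', n = x • n') {K : Type*} [AddCommGroup K] [Module S K]
    (h : Qt rk D N 0 K) : Qt rk D N' 0 K := by
  obtain ⟨φ, h1, h2⟩ := h
  let ι : (Fin (rk 0) → N) →ₗ[S] ↥(Zc rk D N 0) :=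
    LinearMap.codRestrict _ LinearMap.id fun _ => trivial
  obtain ⟨θ, hθ⟩ := exists_factor (q.compLeft (Fin (rk 0))) (compLeft_surjective hq _)
    (φ ∘ₗ ι) (by
      intro z hz
      have h3 : ∀ j, ∃ n', z j = x • n' := fun j => hker _ (congrFun hz j)
      choose w hw using h3
      refine h2 _ ⟨act N (H.T 0) w, ?_⟩
      rw [H.of_mem 0 w trivial]
      exact (funext hw).symm)
  refine ⟨θ ∘ₗ (Zc rk D N' 0).subtype, ?_, ?_⟩
  · intro k
    obtain ⟨z, rfl⟩ := h1 k
    refine ⟨⟨q.compLeft (Fin (rk 0)) z.1, trivial⟩, ?_⟩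
    rw [LinearMap.comp_apply]
    exact (hθ z.1)
  · rintro z ⟨y, hy⟩
    obtain ⟨y', rfl⟩ := compLeft_surjective hq _ y
    rw [LinearMap.comp_apply, Submodule.subtype_apply, ← hy]
    change θ (act N' (D 0) fun j => q (y' j)) = 0
    rw [act_comp]
    change θ (q.compLeft (Fin (rk 0)) (act N (D 0) y')) = 0
    rw [hθ]
    exact h2 _ ⟨y', rfl⟩

/-- The step: the homology in degree `i + 1` after dividing by a regular element which is
null-homotopic surjects onto the product of the homologies in degrees `i + 1` and `i`. -/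
lemma Qt.step_succ (hD : ∀ i, D i * D (i + 1) = 0) (H : Htpy rk D x)
    {N' : Type*} [AddCommGroup N'] [Module S N'] (q : N →ₗ[S] N') (hq : Function.Surjective q)
    (hker : ∀ n, q n = 0 → ∃ n', n = x • n') (hx : ∀ n, q (x • n) = 0)
    (hreg : ∀ n : N, x • n = 0 → n = 0) (i : ℕ)
    {K : Type*} [AddCommGroup K] [Module S K] {K' : Type*} [AddCommGroup K'] [Module S K']
    (h : Qt rk D N (i + 1) K) (h' : Qt rk D N i K') : Qt rk D N' (i + 1) (K × K') := by
  obtain ⟨φ, h1, h2⟩ := h
  obtain ⟨φ', h1', h2'⟩ := h'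
  set Q := q.compLeft (Fin (rk (i + 1))) with hQ
  set W : Submodule S (Fin (rk (i + 1)) → N) := (Zc rk D N' (i + 1)).comap Q with hW
  -- the quotient of the differential by `x`
  have hinj : Function.Injective (x • (LinearMap.id : (Fin (rk i) → N) →ₗ[S] (Fin (rk i) → N))) := by
    rw [← LinearMap.ker_eq_bot, LinearMap.ker_eq_bot']
    intro z hz
    funext j
    exact hreg _ (congrFun hz j)
  obtain ⟨u, hu⟩ := exists_div ((act N (D i)) ∘ₗ W.subtype) _ hinj (by
    intro z
    have h3 : act N' (D i) (fun j => q (z.1 j)) = 0 := z.2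
    rw [act_comp] at h3
    choose w hw using fun j => hker _ (congrFun h3 j)
    exact ⟨w, (funext hw).symm⟩)
  have hu1 : ∀ z : ↥W, x • u z = act N (D i) z.1 := fun z => hu z
  have huniq : ∀ v w : Fin (rk i) → N, x • v = x • w → v = w := fun v w h => hinj h
  have hu2 : ∀ z : ↥W, u z ∈ Zc rk D N i := by
    intro z
    cases i with
    | zero => trivial
    | succ i =>
      change act N (D i) (u z) = 0
      have h3 : x • act N (D i) (u z) = 0 := by
        rw [← map_smul, hu1, ← act_mul, hD, act_zero]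
      funext j
      exact hreg _ (congrFun h3 j)
  have hv : ∀ z : ↥W, z.1 - act N (H.T i) (u z) ∈ Zc rk D N (i + 1) := by
    intro z
    change act N (D i) _ = 0
    rw [map_sub, H.of_mem i _ (hu2 z), hu1, sub_self]
  let θ1 : ↥W →ₗ[S] ↥(Zc rk D N (i + 1)) :=
    LinearMap.codRestrict _ (W.subtype - (act N (H.T i)) ∘ₗ u) hv
  let θ2 : ↥W →ₗ[S] ↥(Zc rk D N i) := LinearMap.codRestrict _ u hu2
  let p : ↥W →ₗ[S] ↥(Zc rk D N' (i + 1)) := Q.restrict fun z hz => hz
  have hp : Function.Surjective p := by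
    intro z
    obtain ⟨y, hy⟩ := compLeft_surjective hq _ z.1
    exact ⟨⟨y, by rw [hW, Submodule.mem_comap, hQ, hy]; exact z.2⟩, Subtype.ext hy⟩
  obtain ⟨θ, hθ⟩ := exists_factor p hp ((φ ∘ₗ θ1).prod (φ' ∘ₗ θ2)) (by
    intro z hz
    have hz1 : ∀ j, q (z.1 j) = 0 := fun j => congrFun (Subtype.ext_iff.1 hz) j
    choose w hw using fun j => hker _ (hz1 j)
    have hzw : z.1 = x • w := funext hw
    have e1 : u z = act N (D i) w := huniq _ _ (by rw [hu1, hzw, map_smul])
    have e2 : φ (θ1 z) = 0 := by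
      refine h2 _ ⟨act N (H.T (i + 1)) w, ?_⟩
      change _ = z.1 - act N (H.T i) (u z)
      rw [e1, hzw, ← act_smul_one N x w, ← H.succ i, act_add, act_mul, act_mul]
      abel
    have e3 : φ' (θ2 z) = 0 := by
      refine h2' _ ⟨w, ?_⟩
      exact e1.symm
    rw [LinearMap.prod_apply]
    change (φ (θ1 z), φ' (θ2 z)) = 0
    rw [e2, e3]
    rfl)
  refine ⟨θ, ?_, ?_⟩
  · rintro ⟨k, k'⟩
    obtain ⟨z1, rfl⟩ := h1 k
    obtain ⟨u1, rfl⟩ := h1' k'
    have e1 : act N (D i) (z1.1 + act N (H.T i) u1.1) = x • u1.1 := by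
      rw [map_add, H.of_mem i _ u1.2, show act N (D i) z1.1 = 0 from z1.2, zero_add]
    have hz : z1.1 + act N (H.T i) u1.1 ∈ W := by
      change act N' (D i) (fun j => q ((z1.1 + act N (H.T i) u1.1) j)) = 0
      rw [act_comp, e1]
      funext j
      exact hx _
    have e2 : u ⟨_, hz⟩ = u1.1 := huniq _ _ (by rw [hu1]; exact e1)
    refine ⟨p ⟨_, hz⟩, ?_⟩
    rw [hθ]
    change (φ (θ1 _), φ' (θ2 _)) = _
    congr 2
    · apply Subtype.ext
      change z1.1 + act N (H.T i) u1.1 - act N (H.T i) (u ⟨_, hz⟩) = z1.1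
      rw [e2, add_sub_cancel_right]
    · apply Subtype.ext
      exact e2
  · rintro z ⟨y, hy⟩
    obtain ⟨y', rfl⟩ := compLeft_surjective hq _ y
    have hmem : act N (D (i + 1)) y' ∈ W := by
      change act N' (D i) (fun j => q (act N (D (i + 1)) y' j)) = 0
      rw [← act_comp, ← act_mul, hD, act_zero]
    have e0 : p ⟨_, hmem⟩ = z := by
      apply Subtype.ext
      rw [← hy]
      change (fun j => q (act N (D (i + 1)) y' j)) = _
      rw [← act_comp]
      rfl
    have e1 : u ⟨_, hmem⟩ = 0 := huniq _ _ (by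
      rw [hu1, smul_zero, ← act_mul, hD, act_zero])
    rw [← e0, hθ]
    change (φ (θ1 _), φ' (θ2 _)) = _
    have e2 : φ (θ1 ⟨_, hmem⟩) = 0 := by
      refine h2 _ ⟨y', ?_⟩
      change _ = act N (D (i + 1)) y' - act N (H.T i) (u ⟨_, hmem⟩)
      rw [e1, map_zero, sub_zero]
    have e3 : φ' (θ2 ⟨_, hmem⟩) = 0 := by
      have : θ2 ⟨_, hmem⟩ = 0 := Subtype.ext e1
      rw [this, map_zero]
    rw [e2, e3]
    rfl

end cx

end ACI29
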