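import Pool.Agent.ACI29.Res
import Pool.Agent.Horrocks.Poly
import Pool.Agent.Horrocks.Signs

/-! The maximal ideal of the variables is not associated to the quotient of the polynomial ring by
a regular sequence of fewer than `m` elements. -/

set_option autoImplicit false

namespace ACI29

open Horr

section depth

variable {m : ℕ} {k : Type*} [Field k]
variable {N : Type*} [AddCommGroup N] [Module k N] [Module (MvPolynomial (Fin m) k) N]
  [IsScalarTower k (MvPolynomial (Fin m) k) N]
variable {N' : Type*} [AddCommGroup N'] [Module k N'] [Module (MvPolynomial (Fin m) k) N']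
  [IsScalarTower k (MvPolynomial (Fin m) k) N']

/-- The Koszul homology vanishes above degree `r`. -/
def Van (m : ℕ) (k : Type*) [Field k] (N : Type*) [AddCommGroup N] [Module k N]
    [Module (MvPolynomial (Fin m) k) N] [IsScalarTower k (MvPolynomial (Fin m) k) N] (r : ℕ) :
    Prop :=
  ∀ i, r < i → ∀ f, f ∈ kdeg k (Fin m) N i → kD (stdInc m) (opX k (Fin m) N) f = 0 →
    ∃ g ∈ kdeg k (Fin m) N (i + 1), kD (stdInc m) (opX k (Fin m) N) g = f

lemma kD_nat (q : N →ₗ[MvPolynomial (Fin m) k] N') (f : Finset (Fin m) → N) :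
    kD (stdInc m) (opX k (Fin m) N') (fun T => q (f T)) =
      fun T => q (kD (stdInc m) (opX k (Fin m) N) f T) := by
  funext T
  rw [kD_apply, kD_apply, map_sum]
  refine Finset.sum_congr rfl fun j _ => ?_
  rw [map_zsmul, opX_apply, opX_apply, map_smul]

lemma van_equiv (e : N ≃ₗ[MvPolynomial (Fin m) k] N') {r : ℕ} (h : Van m k N r) :
    Van m k N' r := by
  intro i hi f hf hD
  obtain ⟨g, hg, hgf⟩ := h i hi (fun T => e.symm (f T)) (fun T hT => by
      change e.symm (f T) = 0
      rw [hf T hT, map_zero]) (by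
      have h1 := kD_nat e.symm.toLinearMap f
      change kD (stdInc m) (opX k (Fin m) N) (fun T => e.symm (f T)) = _ at h1
      rw [h1, hD]
      funext T
      simp)
  refine ⟨fun T => e (g T), fun T hT => by
    change e (g T) = 0
    rw [hg T hT, map_zero], ?_⟩
  have h1 := kD_nat e.toLinearMap g
  change kD (stdInc m) (opX k (Fin m) N') (fun T => e (g T)) = _ at h1
  rw [h1, hgf]
  funext T
  simp

lemma van_free : Van m k (MvPolynomial (Fin m) k) 0 := by
  have h0 : Van m k (Fin 1 → MvPolynomial (Fin m) k) 0 := by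
    intro i hi f hf hD
    obtain ⟨i, rfl⟩ : ∃ j, i = j + 1 := ⟨i - 1, by omega⟩
    obtain ⟨g, hg, hgf⟩ := kZ_le_kB_free (β := Fin 1) (stdInc m) i (mem_kZ.2 ⟨hf, hD⟩)
    exact ⟨g, hg, hgf⟩
  exact van_equiv (LinearEquiv.funUnique (Fin 1) (MvPolynomial (Fin m) k)
    (MvPolynomial (Fin m) k)) h0

lemma van_step {x : MvPolynomial (Fin m) k} (q : N →ₗ[MvPolynomial (Fin m) k] N')
    (hq : Function.Surjective q) (hker : ∀ n, q n = 0 → ∃ n', n = x • n')
    (hx : ∀ n, q (x • n) = 0) (hreg : ∀ n : N, x • n = 0 → n = 0) {r : ℕ} (h : Van m k N r) :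
    Van m k N' (r + 1) := by
  classical
  intro i hi f hf hD
  obtain ⟨i, rfl⟩ : ∃ j, i = j + 1 := ⟨i - 1, by omega⟩
  -- lift
  choose s hs using hq
  set f' : Finset (Fin m) → N := fun T => if T.card = i + 1 then s (f T) else 0 with hf'
  have hf1 : (fun T => q (f' T)) = f := by
    funext T
    simp only [hf']
    split_ifs with h1
    · exact hs _
    · rw [map_zero, hf T h1]
  have hf2 : f' ∈ kdeg k (Fin m) N (i + 1) := by
    intro T hT
    simp only [hf']
    rw [if_neg hT]
  have h1 := kD_nat q f'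
  rw [hf1, hD] at h1
  choose u0 hu0 using fun T => hker _ (congrFun h1.symm T)
  have h2 : kD (stdInc m) (opX k (Fin m) N) f' ∈ kdeg k (Fin m) N i := kD_mem_kdeg _ _ hf2
  set u : Finset (Fin m) → N := fun T => if T.card = i then u0 T else 0 with hu
  have hu1 : (fun T => x • u T) = kD (stdInc m) (opX k (Fin m) N) f' := by
    funext T
    simp only [hu]
    split_ifs with h3
    · exact (hu0 T).symm
    · rw [smul_zero, h2 T h3]
  have hu2 : u ∈ kdeg k (Fin m) N i := by
    intro T hT
    simp only [hu]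
    rw [if_neg hT]
  have hsm : ∀ v : Finset (Fin m) → N, kD (stdInc m) (opX k (Fin m) N) (fun T => x • v T) =
      fun T => x • kD (stdInc m) (opX k (Fin m) N) v T := fun v =>
    kD_nat (LinearMap.lsmul (MvPolynomial (Fin m) k) N x) v
  have hu3 : kD (stdInc m) (opX k (Fin m) N) u = 0 := by
    have h3 := hsm u
    rw [hu1, kD_sq _ _ opX_comm] at h3
    funext T
    exact hreg _ (congrFun h3.symm T)
  obtain ⟨v, hv, hvu⟩ := h i (by omega) u hu2 hu3
  have hw1 : (fun T => f' T - x • v T) ∈ kdeg k (Fin m) N (i + 1) := by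
    intro T hT
    change f' T - x • v T = 0
    rw [hf2 T hT, hv T hT, smul_zero, sub_zero]
  have hw2 : kD (stdInc m) (opX k (Fin m) N) (fun T => f' T - x • v T) = 0 := by
    have h3 : (fun T => f' T - x • v T) = f' - (fun T => x • v T) := rfl
    rw [h3, map_sub, hsm v, hvu, hu1, sub_self]
  obtain ⟨w, hw, hwf⟩ := h (i + 1) (by omega) _ hw1 hw2
  refine ⟨fun T => q (w T), fun T hT => by
    change q (w T) = 0
    rw [hw T hT, map_zero], ?_⟩
  rw [kD_nat, hwf]
  funext T
  rw [map_sub, hx, sub_zero]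
  exact congrFun hf1 T

lemma van_quot (c : ℕ → MvPolynomial (Fin m) k) (r : ℕ)
    (hreg : ∀ j < r, ∀ s, c j * s ∈ J c j → s ∈ J c j) :
    Van m k (MvPolynomial (Fin m) k ⧸ J c r) r := by
  induction r with
  | zero => exact van_equiv (Submodule.quotEquivOfEqBot (J c 0) (J_zero c)).symm van_free
  | succ r ih =>
    exact van_step (pj c r) (pj_surjective c r) (pj_ker c r) (pj_smul c r)
      (reg_quot (hreg r (by omega))) (ih fun j hj => hreg j (by omega))

/-- Depth. -/
theorem no_socle (c : ℕ → MvPolynomial (Fin m) k) (r : ℕ) (hr : r < m)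
    (hreg : ∀ j < r, ∀ s, c j * s ∈ J c j → s ∈ J c j)
    (y : MvPolynomial (Fin m) k ⧸ J c r)
    (hy : ∀ j : Fin m, (MvPolynomial.X j : MvPolynomial (Fin m) k) • y = 0) : y = 0 := by
  classical
  have h0 := van_quot c r hreg
  set f : Finset (Fin m) → (MvPolynomial (Fin m) k ⧸ J c r) := fun T => if T.card = m then y else 0
    with hf
  have hf1 : f ∈ kdeg k (Fin m) (MvPolynomial (Fin m) k ⧸ J c r) m := by
    intro T hT
    simp only [hf]
    rw [if_neg hT]
  have hf2 : kD (stdInc m) (opX k (Fin m) (MvPolynomial (Fin m) k ⧸ J c r)) f = 0 := by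
    funext T
    rw [kD_apply]
    refine Finset.sum_eq_zero fun j _ => ?_
    rw [opX_apply]
    simp only [hf]
    split_ifs
    · rw [hy j, smul_zero]
    · rw [smul_zero, smul_zero]
  obtain ⟨g, hg, hgf⟩ := h0 m hr f hf1 hf2
  have hg0 : g = 0 := by
    funext T
    refine hg T ?_
    have := Finset.card_le_univ T
    rw [Fintype.card_fin] at this
    omega
  rw [hg0, map_zero] at hgf
  have h3 := congrFun hgf Finset.univ
  simp only [hf, Finset.card_univ, Fintype.card_fin] at h3
  exact h3.symm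

end depth

end ACI29
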