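import Pool.Agent.ACI29.Res

/-! Lengths of cokernels of a square matrix, and the rank inequality. -/

set_option autoImplicit false

namespace ACI29

open Matrix

section coker

variable {S : Type*} [CommRing S] (N : Type*) [AddCommGroup N] [Module S N]
variable {a b r n : ℕ}

/-- The length of the cokernel of a matrix acting on tuples. -/
noncomputable def cl (Φ : Matrix (Fin b) (Fin a) S) : ℕ∞ :=
  Module.length S ((Fin b → N) ⧸ LinearMap.range (act N Φ))

variable {N} {N' : Type*} [AddCommGroup N'] [Module S N']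

lemma cl_le_of_surjective (Φ : Matrix (Fin b) (Fin a) S) (q : N →ₗ[S] N')
    (hq : Function.Surjective q) : cl N' Φ ≤ cl N Φ := by
  let f : ((Fin b → N) ⧸ LinearMap.range (act N Φ)) →ₗ[S]
      ((Fin b → N') ⧸ LinearMap.range (act N' Φ)) :=
    Submodule.mapQ _ _ (q.compLeft (Fin b)) (by
      rintro _ ⟨y, rfl⟩
      exact ⟨fun j => q (y j), act_comp N q Φ y⟩)
  refine Module.length_le_of_surjective f ?_
  intro v
  obtain ⟨w, rfl⟩ := Submodule.Quotient.mk_surjective _ v
  obtain ⟨y, rfl⟩ := compLeft_surjective hq b w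
  exact ⟨Submodule.Quotient.mk y, rfl⟩

lemma length_pi_ne_top (hN : Module.length S N ≠ ⊤) (r : ℕ) :
    Module.length S (Fin r → N) ≠ ⊤ := by
  rw [Module.length_pi]
  lift Module.length S N to ℕ using hN with l
  have h4 : (ENat.card (Fin r)) = (r : ℕ∞) := by simp
  rw [h4, ← Nat.cast_mul]
  exact ENat.natCast_ne_top _

/-- Kernel and cokernel of a square matrix on a module of finite length have the same length. -/
lemma length_ker_eq_cl (Φ : Matrix (Fin r) (Fin r) S) (hN : Module.length S N ≠ ⊤) :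
    Module.length S ↥(LinearMap.ker (act N Φ)) = cl N Φ := by
  have h1 := Module.length_eq_add_of_exact (LinearMap.ker (act N Φ)).subtype
    (act N Φ).rangeRestrict (Submodule.subtype_injective _) (act N Φ).surjective_rangeRestrict
    (by
      intro y
      constructor
      · intro hy
        exact ⟨⟨y, Subtype.ext_iff.1 hy⟩, rfl⟩
      · rintro ⟨z, rfl⟩
        exact Subtype.ext z.2)
  have h2 := Module.length_eq_add_of_exact (LinearMap.range (act N Φ)).subtype
    (LinearMap.range (act N Φ)).mkQ (Submodule.subtype_injective _) (Submodule.mkQ_surjective _)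
    (LinearMap.exact_subtype_mkQ _)
  have h3 : Module.length S (Fin r → N) ≠ ⊤ := length_pi_ne_top hN r
  have h4 : Module.length S ↥(LinearMap.range (act N Φ)) ≠ ⊤ := by
    intro h
    rw [h, top_add] at h2
    exact h3 h2
  rw [h1, add_comm] at h2
  exact ENat.add_right_injective_of_ne_top h4 h2

/-- The key inequality. -/
lemma cl_le (Φ : Matrix (Fin r) (Fin r) S) (hN : Module.length S N ≠ ⊤)
    (Z : Submodule S (Fin n → N)) (φ : ↥Z →ₗ[S] N') (hφ : Function.Surjective φ) :
    cl N' Φ ≤ n * cl N Φ := by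
  have hZ : Module.length S ↥Z ≠ ⊤ :=
    ne_top_of_le_ne_top (length_pi_ne_top hN n)
      (Module.length_le_of_injective Z.subtype Z.subtype_injective)
  have h1 : cl N' Φ ≤ Module.length S ↥(LinearMap.ker (act ↥Z Φ)) := by
    rw [length_ker_eq_cl Φ hZ]
    exact cl_le_of_surjective Φ φ hφ
  refine h1.trans ?_
  have key : ∀ w : ↥(LinearMap.ker (act ↥Z Φ)), ∀ j : Fin n,
      (fun i => (w.1 i).1 j) ∈ LinearMap.ker (act N Φ) := by
    intro w j
    have h2 : act ↥Z Φ w.1 = 0 := w.2
    have h3 := act_comp ↥Z ((LinearMap.proj j : (Fin n → N) →ₗ[S] N) ∘ₗ Z.subtype) Φ w.1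
    change act N Φ (fun i => (w.1 i).1 j) = 0
    change act N Φ (fun i => (w.1 i).1 j) = _ at h3
    rw [h3, h2]
    funext i
    simp
  let f : ↥(LinearMap.ker (act ↥Z Φ)) →ₗ[S] (Fin n → ↥(LinearMap.ker (act N Φ))) :=
    { toFun := fun w j => ⟨fun i => (w.1 i).1 j, key w j⟩
      map_add' := fun w w' => rfl
      map_smul' := fun s w => rfl }
  have hf : Function.Injective f := by
    intro w w' h
    apply Subtype.ext
    funext i
    apply Subtype.ext
    funext j
    have h5 := congrFun h j
    have h6 := Subtype.ext_iff.1 h5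
    exact congrFun h6 i
  have h7 : Module.length S ↥(LinearMap.ker (act ↥Z Φ)) ≤
      Module.length S (Fin n → ↥(LinearMap.ker (act N Φ))) :=
    Module.length_le_of_injective f hf
  rw [Module.length_pi, length_ker_eq_cl Φ hN] at h7
  simpa using h7

/-- Direct powers. -/
lemma mul_cl_le (Φ : Matrix (Fin b) (Fin a) S) (n : ℕ) :
    (n : ℕ∞) * cl N Φ ≤ cl (Fin n → N) Φ := by
  let f : ((Fin b → (Fin n → N)) ⧸ LinearMap.range (act (Fin n → N) Φ)) →ₗ[S]
      (Fin n → ((Fin b → N) ⧸ LinearMap.range (act N Φ))) :=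
    (LinearMap.range (act (Fin n → N) Φ)).liftQ
      (LinearMap.pi fun j => (LinearMap.range (act N Φ)).mkQ ∘ₗ
        ((LinearMap.proj j : (Fin n → N) →ₗ[S] N).compLeft (Fin b))) (by
      rintro _ ⟨y, rfl⟩
      rw [LinearMap.mem_ker]
      funext j
      have h3 := act_comp (Fin n → N) (LinearMap.proj j : (Fin n → N) →ₗ[S] N) Φ y
      rw [LinearMap.pi_apply, LinearMap.comp_apply, Submodule.mkQ_apply, Pi.zero_apply,
        Submodule.Quotient.mk_eq_zero]
      exact ⟨_, h3⟩)
  have hf : Function.Surjective f := by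
    intro v
    choose w hw using fun j => Submodule.Quotient.mk_surjective _ (v j)
    refine ⟨Submodule.Quotient.mk fun i j => w j i, ?_⟩
    funext j
    exact hw j
  have h7 := Module.length_le_of_surjective f hf
  rw [Module.length_pi] at h7
  simpa [cl] using h7

end coker

section main

variable {S : Type*} [CommRing S] {M : Type*} [AddCommGroup M] [Module S M]

/-- The rank inequality. -/
theorem rank_ineq (F : Horr.FreeRes S M) (c : ℕ → S) (m : ℕ)
    (hkill : ∀ r < m, ∀ y : M, c r • y = 0)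
    (hreg : ∀ r < m, ∀ s, c r * s ∈ J c r → s ∈ J c r)
    (hlen : Module.length S (S ⧸ J c m) ≠ ⊤) (i r : ℕ) (Φ : Matrix (Fin r) (Fin r) S) :
    (m.choose i : ℕ∞) * cl M Φ ≤ F.rk i * cl (S ⧸ J c m) Φ := by
  obtain ⟨φ, h1, -⟩ := Qt_main F c m hkill hreg m le_rfl i
  exact (mul_cl_le Φ (m.choose i)).trans (cl_le Φ hlen _ φ h1)

end main

end ACI29
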