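import Pool.Agent.ACI29.Depth

/-! Regular sequences among the generators of an ideal of finite colength. -/

set_option autoImplicit false

namespace ACI29

section avoid

variable {R : Type*} [CommRing R]

/-- Coset version of prime avoidance. -/
theorem coset_avoid (I : Ideal R) (x : R) (n : ℕ) : ∀ s : Finset (Ideal R), s.card = n →
    (∀ P ∈ s, P.IsPrime) → (∀ P ∈ s, ¬ (x ∈ P ∧ I ≤ P)) → ∃ t ∈ I, ∀ P ∈ s, x + t ∉ P := by
  classical
  induction n with
  | zero =>
    intro s hs _ _
    rw [Finset.card_eq_zero] at hs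
    subst hs
    exact ⟨0, I.zero_mem, by simp⟩
  | succ n ih =>
    intro s hs hp hx
    have hne : s.Nonempty := by
      rw [← Finset.card_pos]
      omega
    obtain ⟨P, hP, hmin⟩ := s.exists_minimal hne
    obtain ⟨t, ht, hav⟩ := ih (s.erase P) (by rw [Finset.card_erase_of_mem hP]; omega)
      (fun Q hQ => hp Q (Finset.mem_of_mem_erase hQ))
      (fun Q hQ => hx Q (Finset.mem_of_mem_erase hQ))
    by_cases hPt : x + t ∈ P
    · have hPp : P.IsPrime := hp P hP
      have hIP : ¬ I ≤ P := by
        intro h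
        refine hx P hP ⟨?_, h⟩
        have h1 := P.sub_mem hPt (h ht)
        rwa [add_sub_cancel_right] at h1
      have hinf : ¬ (s.erase P).inf id ≤ P := by
        intro h
        obtain ⟨Q, hQ, hQP⟩ := (Ideal.IsPrime.inf_le' hPp).1 h
        have h2 := hmin (Finset.mem_of_mem_erase hQ) hQP
        exact Finset.ne_of_mem_erase hQ (le_antisymm hQP h2)
      obtain ⟨u, hu, huP⟩ : ∃ u ∈ I ⊓ (s.erase P).inf id, u ∉ P := by
        by_contra hcon
        push Not at hcon
        rcases hPp.inf_le.1 (fun u hu => hcon u hu) with h | h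
        · exact hIP h
        · exact hinf h
      have hu1 : u ∈ I := hu.1
      have hu2 : ∀ Q ∈ s.erase P, u ∈ Q := fun Q hQ => by
        have h4 : u ∈ (s.erase P).inf id := hu.2
        rw [Submodule.mem_finsetInf] at h4
        exact h4 Q hQ
      refine ⟨t + u, I.add_mem ht hu1, fun Q hQ h => ?_⟩
      by_cases hQP : Q = P
      · subst hQP
        apply huP
        have h5 := Q.sub_mem h hPt
        have h6 : x + (t + u) - (x + t) = u := by ring
        rwa [h6] at h5
      · have hQ' : Q ∈ s.erase P := Finset.mem_erase.2 ⟨hQP, hQ⟩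
        apply hav Q hQ'
        have h5 := Q.sub_mem h (hu2 Q hQ')
        have h6 : x + (t + u) - u = x + t := by ring
        rwa [h6] at h5
    · refine ⟨t, ht, fun Q hQ => ?_⟩
      by_cases hQP : Q = P
      · rw [hQP]
        exact hPt
      · exact hav Q (Finset.mem_erase.2 ⟨hQP, hQ⟩)

end avoid

section reg

open MvPolynomial

variable {m : ℕ} {k : Type*} [Field k]

/-- An associated prime of the quotient by a short regular sequence does not contain an ideal of
finite colength supported at the origin. -/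
lemma not_le_of_assoc (I : Ideal (MvPolynomial (Fin m) k))
    (hpow : ∀ j : Fin m, ∃ e : ℕ, (X j : MvPolynomial (Fin m) k) ^ e ∈ I)
    (c : ℕ → MvPolynomial (Fin m) k) (r : ℕ) (hr : r < m)
    (hreg : ∀ j < r, ∀ s, c j * s ∈ J c j → s ∈ J c j) (P : Ideal (MvPolynomial (Fin m) k))
    (hP : P ∈ associatedPrimes (MvPolynomial (Fin m) k) (MvPolynomial (Fin m) k ⧸ J c r)) :
    ¬ I ≤ P := by
  intro hIP
  obtain ⟨hp, y, hy⟩ := isAssociatedPrime_iff.1 hP
  have h1 : y = 0 := by
    refine no_socle c r hr hreg y fun j => ?_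
    obtain ⟨e, he⟩ := hpow j
    have h2 : (X j : MvPolynomial (Fin m) k) ∈ P := hp.mem_of_pow_mem e (hIP he)
    rw [hy, Submodule.mem_colon_singleton, Submodule.mem_bot] at h2
    exact h2
  apply hp.ne_top
  rw [hy, h1, Ideal.eq_top_iff_one, Submodule.mem_colon_singleton, smul_zero]
  exact Submodule.zero_mem _

lemma regular_of_avoid {J' : Ideal (MvPolynomial (Fin m) k)} {x : MvPolynomial (Fin m) k}
    (h : ∀ P ∈ associatedPrimes (MvPolynomial (Fin m) k) (MvPolynomial (Fin m) k ⧸ J'), x ∉ P)
    (s : MvPolynomial (Fin m) k) (hs : x * s ∈ J') : s ∈ J' := by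
  by_contra hns
  have h1 : x ∈ ⋃ p ∈ associatedPrimes (MvPolynomial (Fin m) k) (MvPolynomial (Fin m) k ⧸ J'),
      (p : Set (MvPolynomial (Fin m) k)) := by
    rw [biUnion_associatedPrimes_eq_zero_divisors]
    refine ⟨Submodule.Quotient.mk s, ?_, ?_⟩
    · rw [Ne, Submodule.Quotient.mk_eq_zero]
      exact hns
    · rw [← Submodule.Quotient.mk_smul, Submodule.Quotient.mk_eq_zero]
      exact hs
  rw [Set.mem_iUnion₂] at h1
  obtain ⟨p, hp, hx⟩ := h1
  exact h p hp hx

lemma J_congr {R : Type*} [CommRing R] {c d : ℕ → R} {r : ℕ} (h : ∀ j < r, c j = d j) :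
    J c r = J d r := by
  rw [J, J]
  congr 1
  apply Set.image_congr
  intro j hj
  exact h j hj

/-- Changing one generator by a combination of the other ones. -/
lemma span_update {R : Type*} [CommRing R] (h : ℕ → R) (n r : ℕ) (hr : r < n) (t : R)
    (ht : t ∈ Ideal.span (h '' (Set.Iio n \ {r}))) :
    J (Function.update h r (h r + t)) n = J h n := by
  set h' := Function.update h r (h r + t) with hh'
  have e1 : ∀ j, j ≠ r → h' j = h j := fun j hj => Function.update_of_ne hj _ _
  have e2 : h' r = h r + t := Function.update_self _ _ _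
  have hoth : h' '' (Set.Iio n \ {r}) = h '' (Set.Iio n \ {r}) := by
    apply Set.image_congr
    rintro j ⟨_, hj⟩
    exact e1 j hj
  have hsub : ∀ g : ℕ → R, Ideal.span (g '' (Set.Iio n \ {r})) ≤ J g n := fun g =>
    Ideal.span_mono (Set.image_mono Set.sdiff_subset)
  apply le_antisymm
  · rw [J, Ideal.span_le]
    rintro _ ⟨j, hj, rfl⟩
    by_cases hjr : j = r
    · rw [hjr, e2]
      exact Ideal.add_mem _ (mem_J h hr) (hsub h ht)
    · rw [e1 j hjr]
      exact mem_J h hj
  · rw [J, Ideal.span_le]
    rintro _ ⟨j, hj, rfl⟩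
    by_cases hjr : j = r
    · rw [hjr]
      have h1 : h r = h' r - t := by rw [e2, add_sub_cancel_right]
      rw [h1]
      exact Ideal.sub_mem _ (mem_J h' hr) (hsub h' (by rw [hoth]; exact ht))
    · rw [← e1 j hjr]
      exact mem_J h' hj

/-- The first `m` generators may be taken to be a regular sequence. -/
theorem exists_regular (f : ℕ → MvPolynomial (Fin m) k) (n : ℕ) (hn : m ≤ n)
    (hpow : ∀ j : Fin m, ∃ e : ℕ, (X j : MvPolynomial (Fin m) k) ^ e ∈ J f n) (r : ℕ)
    (hr : r ≤ m) :
    ∃ c : ℕ → MvPolynomial (Fin m) k, J c n = J f n ∧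
      ∀ j < r, ∀ s, c j * s ∈ J c j → s ∈ J c j := by
  classical
  induction r with
  | zero => exact ⟨f, rfl, by simp⟩
  | succ r ih =>
    obtain ⟨h, h1, h2⟩ := ih (by omega)
    have hfin := associatedPrimes.finite (MvPolynomial (Fin m) k) (MvPolynomial (Fin m) k ⧸ J h r)
    obtain ⟨t, ht, hav⟩ := coset_avoid (Ideal.span (h '' (Set.Iio n \ {r}))) (h r) _ hfin.toFinset
      rfl (fun P hP => by
        rw [Set.Finite.mem_toFinset] at hP
        exact hP.1) (fun P hP => by
        rw [Set.Finite.mem_toFinset] at hP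
        rintro ⟨hx, hI⟩
        refine not_le_of_assoc (J f n) hpow h r (by omega) h2 P hP ?_
        rw [← h1, J, Ideal.span_le]
        rintro _ ⟨j, hj, rfl⟩
        by_cases hjr : j = r
        · rw [hjr]
          exact hx
        · exact hI (Ideal.subset_span ⟨j, ⟨hj, hjr⟩, rfl⟩))
    refine ⟨Function.update h r (h r + t), ?_, ?_⟩
    · rw [span_update h n r (by omega) t ht, h1]
    · intro j hj s
      have e1 : ∀ l < r, Function.update h r (h r + t) l = h l :=
        fun l hl => Function.update_of_ne (by omega) _ _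
      rw [J_congr (r := j) (fun l hl => e1 l (by omega))]
      by_cases hjr : j = r
      · subst hjr
        rw [Function.update_self]
        exact fun hs => regular_of_avoid (fun P hP => hav P (by
          rw [Set.Finite.mem_toFinset]
          exact hP)) s hs
      · rw [e1 j (by omega)]
        exact h2 j (by omega) s

/-- Krull dimension of the quotients. -/
lemma dim_quot (c : ℕ → MvPolynomial (Fin m) k) (r : ℕ) (hr : r ≤ m)
    (hreg : ∀ j < r, ∀ s, c j * s ∈ J c j → s ∈ J c j) :
    ringKrullDim (MvPolynomial (Fin m) k ⧸ J c r) + r ≤ m := by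
  induction r with
  | zero =>
    have h1 : ringKrullDim (MvPolynomial (Fin m) k ⧸ J c 0) ≤ ringKrullDim (MvPolynomial (Fin m) k) :=
      ringKrullDim_quotient_le _
    have h2 : ringKrullDim (MvPolynomial (Fin m) k) = m := by
      rw [MvPolynomial.ringKrullDim_of_isNoetherianRing]
      simp
    rw [h2] at h1
    simpa using h1
  | succ r ih =>
    have ih' := ih (by omega) fun j hj => hreg j (by omega)
    have h1 : ringKrullDim (MvPolynomial (Fin m) k ⧸ J c (r + 1)) + 1 ≤
        ringKrullDim (MvPolynomial (Fin m) k ⧸ J c r) := by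
      refine ringKrullDim_succ_le_of_surjective (Ideal.Quotient.factor (J_le_succ c r))
        (Ideal.Quotient.factor_surjective (J_le_succ c r)) (r := Ideal.Quotient.mk _ (c r)) ?_ ?_
      · rw [mem_nonZeroDivisors_iff_right]
        intro z hz
        obtain ⟨z, rfl⟩ := Ideal.Quotient.mk_surjective z
        rw [← map_mul, Ideal.Quotient.eq_zero_iff_mem] at hz
        rw [Ideal.Quotient.eq_zero_iff_mem]
        exact hreg r (by omega) z (by rwa [mul_comm])
      · rw [Ideal.Quotient.factor_mk, Ideal.Quotient.eq_zero_iff_mem]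
        exact mem_J c (Nat.lt_succ_self r)
    calc ringKrullDim (MvPolynomial (Fin m) k ⧸ J c (r + 1)) + ((r + 1 : ℕ) : WithBot ℕ∞)
        = (ringKrullDim (MvPolynomial (Fin m) k ⧸ J c (r + 1)) + 1) + (r : WithBot ℕ∞) := by
          push_cast
          rw [add_assoc, add_comm (1 : WithBot ℕ∞)]
      _ ≤ ringKrullDim (MvPolynomial (Fin m) k ⧸ J c r) + (r : WithBot ℕ∞) := by gcongr
      _ ≤ m := ih'

/-- Finite length of the quotient by a regular sequence of `m` elements. -/
theorem length_quot_ne_top (c : ℕ → MvPolynomial (Fin m) k)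
    (hreg : ∀ j < m, ∀ s, c j * s ∈ J c j → s ∈ J c j) :
    Module.length (MvPolynomial (Fin m) k) (MvPolynomial (Fin m) k ⧸ J c m) ≠ ⊤ := by
  have h1 := dim_quot c m le_rfl hreg
  have h2 : ringKrullDim (MvPolynomial (Fin m) k ⧸ J c m) ≤ 0 := by
    by_contra hcon
    rw [not_le] at hcon
    have h3 : (1 : WithBot ℕ∞) ≤ ringKrullDim (MvPolynomial (Fin m) k ⧸ J c m) :=
      (WithBot.one_le_iff_pos _).2 hcon
    have h4 : (1 : WithBot ℕ∞) + m ≤ m := (add_le_add_left h3 _).trans h1
    have h5 : ((1 + m : ℕ) : WithBot ℕ∞) ≤ (m : ℕ) := by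
      push_cast
      exact h4
    have h6 : (1 + m : ℕ) ≤ m := by exact_mod_cast h5
    omega
  have h3 : Ring.KrullDimLE 0 (MvPolynomial (Fin m) k ⧸ J c m) := by
    rw [Ring.krullDimLE_iff]
    exact h2
  have h4 : IsArtinianRing (MvPolynomial (Fin m) k ⧸ J c m) :=
    IsNoetherianRing.isArtinianRing_of_krullDimLE_zero
  rw [Module.length_eq_of_surjective (R := MvPolynomial (Fin m) k ⧸ J c m)
    (Ideal.Quotient.mk_surjective)]
  exact Module.length_ne_top

end reg

end ACI29
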