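import Pool.Agent.ACI29.Endp
import Pool.Agent.ACI29.Reg

/-! The rank inequality for sequences indexed by `Fin m`, and its consequence for almost complete
intersections. -/

set_option autoImplicit false

namespace ACI29

open MvPolynomial

section gen

variable {S : Type*} [CommRing S]

/-- Regular sequences (every element is a nonzerodivisor modulo the earlier ones). -/
def RegSeq {n : ℕ} (c : Fin n → S) : Prop :=
  ∀ (r : Fin n) (s : S), c r * s ∈ Ideal.span (c '' {j | j < r}) →
    s ∈ Ideal.span (c '' {j | j < r})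

/-- Extending a finite sequence by zero. -/
def ext0 {n : ℕ} (c : Fin n → S) (j : ℕ) : S := if h : j < n then c ⟨j, h⟩ else 0

lemma ext0_lt {n : ℕ} (c : Fin n → S) {j : ℕ} (h : j < n) : ext0 c j = c ⟨j, h⟩ := dif_pos h

lemma J_ext0 {n : ℕ} (c : Fin n → S) : J (ext0 c) n = Ideal.span (Set.range c) := by
  rw [J]
  congr 1
  ext x
  constructor
  · rintro ⟨j, hj, rfl⟩
    exact ⟨⟨j, hj⟩, (ext0_lt c hj).symm⟩
  · rintro ⟨j, rfl⟩
    exact ⟨j.1, j.2, ext0_lt c j.2⟩

lemma J_ext0_lt {n : ℕ} (c : Fin n → S) (r : Fin n) :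
    J (ext0 c) r = Ideal.span (c '' {j | j < r}) := by
  rw [J]
  congr 1
  ext x
  constructor
  · rintro ⟨j, hj, rfl⟩
    have hj' : j < r.1 := hj
    exact ⟨⟨j, hj'.trans r.2⟩, hj', (ext0_lt c (hj'.trans r.2)).symm⟩
  · rintro ⟨j, hj, rfl⟩
    exact ⟨j.1, hj, ext0_lt c j.2⟩

theorem rank_ineq' {M : Type*} [AddCommGroup M] [Module S M] {m : ℕ} (c : Fin m → S)
    (hreg : RegSeq c)
    (hlen : Module.length S (S ⧸ Ideal.span (Set.range c)) ≠ ⊤)
    (hkill : ∀ (j : Fin m) (y : M), c j • y = 0)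
    (F : Horr.FreeRes S M) (i r : ℕ) (Φ : Matrix (Fin r) (Fin r) S) :
    (m.choose i : ℕ∞) * cl M Φ ≤ F.rk i * cl (S ⧸ Ideal.span (Set.range c)) Φ := by
  have h1 := rank_ineq F (ext0 c) m (fun r hr y => by
      rw [ext0_lt c hr]
      exact hkill _ y) (fun r hr s => by
      have h2 := hreg ⟨r, hr⟩ s
      rw [← J_ext0_lt c ⟨r, hr⟩, ← ext0_lt c hr] at h2
      exact h2) (by
      rw [J_ext0]
      exact hlen) i r Φ
  rw [J_ext0] at h1
  exact h1

end gen

section poly

variable {m : ℕ} {k : Type*} [Field k]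

/-- Proper ideals which contain a power of every variable. -/
def AtOrigin (I : Ideal (MvPolynomial (Fin m) k)) : Prop :=
  I ≠ ⊤ ∧ ∀ j : Fin m, ∃ e : ℕ, (X j : MvPolynomial (Fin m) k) ^ e ∈ I

/-- An element killing the module, in the form of a matrix with one entry. -/
lemma cl_one (N : Type*) [AddCommGroup N] [Module (MvPolynomial (Fin m) k) N]
    (g : MvPolynomial (Fin m) k) (hg : ∀ y : N, g • y = 0) :
    Module.length (MvPolynomial (Fin m) k) N ≤ cl N (Matrix.of fun _ _ : Fin 1 => g) := by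
  let e : ((Fin 1 → N) ⧸ LinearMap.range (act N (Matrix.of fun _ _ : Fin 1 => g)))
      →ₗ[MvPolynomial (Fin m) k] N :=
    Submodule.liftQ _ (LinearMap.proj 0) (by
      rintro _ ⟨y, rfl⟩
      rw [LinearMap.mem_ker, LinearMap.proj_apply, act_apply]
      exact Finset.sum_eq_zero fun j _ => hg _)
  refine Module.length_le_of_surjective e ?_
  intro y
  exact ⟨Submodule.Quotient.mk fun _ => y, rfl⟩

lemma cl_quot_le (q a : Ideal (MvPolynomial (Fin m) k)) (g : MvPolynomial (Fin m) k)
    (h : a ≤ q ⊔ Ideal.span {g}) :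
    cl (MvPolynomial (Fin m) k ⧸ q) (Matrix.of fun _ _ : Fin 1 => g) ≤
      Module.length (MvPolynomial (Fin m) k) (MvPolynomial (Fin m) k ⧸ a) := by
  let θ : MvPolynomial (Fin m) k →ₗ[MvPolynomial (Fin m) k]
      ((Fin 1 → MvPolynomial (Fin m) k ⧸ q) ⧸
        LinearMap.range (act (MvPolynomial (Fin m) k ⧸ q) (Matrix.of fun _ _ : Fin 1 => g))) :=
    (Submodule.mkQ _) ∘ₗ (LinearMap.pi fun _ => q.mkQ)
  have hθ : a ≤ LinearMap.ker θ := by
    refine h.trans (sup_le ?_ ?_)
    · intro x hx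
      rw [LinearMap.mem_ker, LinearMap.comp_apply]
      have h1 : (LinearMap.pi fun _ : Fin 1 => q.mkQ) x = 0 := by
        funext j
        rw [LinearMap.pi_apply, Submodule.mkQ_apply, Pi.zero_apply, Submodule.Quotient.mk_eq_zero]
        exact hx
      rw [h1, map_zero]
    · rw [Ideal.span_singleton_le_iff_mem, LinearMap.mem_ker, LinearMap.comp_apply,
        Submodule.mkQ_apply, Submodule.Quotient.mk_eq_zero]
      refine ⟨fun _ => Submodule.Quotient.mk 1, ?_⟩
      funext j
      rw [act_apply, LinearMap.pi_apply, Submodule.mkQ_apply]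
      simp only [Finset.univ_unique, Finset.sum_singleton]
      rw [← Submodule.Quotient.mk_smul, smul_eq_mul, mul_one]
      rfl
  refine Module.length_le_of_surjective (Submodule.liftQ a θ hθ) ?_
  intro v
  obtain ⟨w, rfl⟩ := Submodule.Quotient.mk_surjective _ v
  obtain ⟨s, hs⟩ := Submodule.Quotient.mk_surjective _ (w 0)
  refine ⟨Submodule.Quotient.mk s, ?_⟩
  rw [Submodule.liftQ_apply, LinearMap.comp_apply, Submodule.mkQ_apply]
  congr 1
  funext j
  rw [LinearMap.pi_apply, Submodule.mkQ_apply, hs, Subsingleton.elim j 0]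

lemma le_of_mul_le {a b : ℕ} {L L' : ℕ∞} (h0 : L' ≠ 0) (ht : L' ≠ ⊤) (hL : L' ≤ L)
    (h : (a : ℕ∞) * L ≤ b * L') : a ≤ b := by
  have h1 : (a : ℕ∞) * L' ≤ b * L' := (mul_le_mul_right hL _).trans h
  have h2 := (ENat.mul_le_mul_right_iff h0 ht).1 h1
  exact_mod_cast h2

theorem aci (f : Fin (m + 1) → MvPolynomial (Fin m) k)
    (h1 : Ideal.span (Set.range f) ≠ ⊤)
    (hX : ∀ j : Fin m, ∃ e : ℕ, (X j : MvPolynomial (Fin m) k) ^ e ∈ Ideal.span (Set.range f))
    {M : Type*} [AddCommGroup M] [Module (MvPolynomial (Fin m) k) M]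
    (hM : ∀ (j : Fin (m + 1)) (y : M), f j • y = 0)
    (hlen : Module.length (MvPolynomial (Fin m) k)
      (MvPolynomial (Fin m) k ⧸ Ideal.span (Set.range f)) ≤
        Module.length (MvPolynomial (Fin m) k) M)
    (F : Horr.FreeRes (MvPolynomial (Fin m) k) M) (i : ℕ) : m.choose i ≤ F.rk i := by
  have hJf : J (ext0 f) (m + 1) = Ideal.span (Set.range f) := J_ext0 f
  obtain ⟨c, hc1, hc2⟩ := exists_regular (ext0 f) (m + 1) (by omega) (by
    rw [hJf]
    exact hX) m le_rfl
  have hann : ∀ x ∈ Ideal.span (Set.range f), ∀ y : M, x • y = 0 := by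
    intro x hx y
    have h2 : Ideal.span (Set.range f) ≤ Submodule.colon (⊥ : Submodule _ M) {y} := by
      rw [Ideal.span_le]
      rintro _ ⟨j, rfl⟩
      rw [SetLike.mem_coe, Submodule.mem_colon_singleton, Submodule.mem_bot]
      exact hM j y
    have h3 := h2 hx
    rw [Submodule.mem_colon_singleton, Submodule.mem_bot] at h3
    exact h3
  have hcm : ∀ j < m + 1, c j ∈ Ideal.span (Set.range f) := by
    intro j hj
    rw [← hJf, ← hc1]
    exact mem_J c hj
  have hfin := length_quot_ne_top c hc2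
  have h2 := rank_ineq F c m (fun r hr y => hann _ (hcm r (by omega)) y) hc2 hfin i 1
    (Matrix.of fun _ _ => c m)
  have h3 := cl_one M (c m) (hann _ (hcm m (by omega)))
  have h4 := cl_quot_le (J c m) (Ideal.span (Set.range f)) (c m) (by
    rw [← hJf, ← hc1, J_succ])
  have h5 : (m.choose i : ℕ∞) * Module.length (MvPolynomial (Fin m) k) M ≤
      F.rk i * Module.length (MvPolynomial (Fin m) k)
        (MvPolynomial (Fin m) k ⧸ Ideal.span (Set.range f)) :=
    (mul_le_mul_right h3 _).trans (h2.trans (mul_le_mul_right h4 _))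
  refine le_of_mul_le ?_ ?_ hlen h5
  · rw [Ne, Module.length_eq_zero_iff, Submodule.Quotient.subsingleton_iff]
    exact h1
  · have h6 : J c m ≤ Ideal.span (Set.range f) := by
      rw [← hJf, ← hc1]
      exact J_le_succ c m
    exact ne_top_of_le_ne_top hfin
      (Module.length_le_of_surjective (Submodule.factor h6) (Submodule.factor_surjective h6))

end poly

end ACI29
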