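import Pool.Agent.ACI29.Act

/-! Homotopies on a free resolution, and the homology of the resolution with coefficients in the
quotients by the initial parts of a regular sequence. -/

set_option autoImplicit false

namespace ACI29

open Matrix

section res

variable {S : Type*} [CommRing S] {M : Type*} [AddCommGroup M] [Module S M]

/-- The matrices of the differentials. -/
noncomputable def mat (F : Horr.FreeRes S M) (i : ℕ) :
    Matrix (Fin (F.rk i)) (Fin (F.rk (i + 1))) S :=
  LinearMap.toMatrix' (F.d i)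

lemma act_mat (F : Horr.FreeRes S M) (i : ℕ) (y : Fin (F.rk (i + 1)) → S) :
    act S (mat F i) y = F.d i y := by
  have h1 : Matrix.toLin' (mat F i) y = F.d i y := by
    rw [mat, Matrix.toLin'_toMatrix']
  rw [← h1, Matrix.toLin'_apply]
  funext j
  simp [act_apply, Matrix.mulVec, dotProduct]

lemma mat_mul (F : Horr.FreeRes S M) (i : ℕ) : mat F i * mat F (i + 1) = 0 := by
  rw [mat, mat, ← LinearMap.toMatrix'_comp, (F.exact_succ i).linearMap_comp_eq_zero, map_zero]

/-- Lifting a map from a free module. -/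
lemma exists_lift_free {c : ℕ} {A P : Type*} [AddCommGroup A] [Module S A] [AddCommGroup P]
    [Module S P] (g : A →ₗ[S] P) (h : (Fin c → S) →ₗ[S] P) (hh : ∀ v, ∃ w, g w = h v) :
    ∃ t : (Fin c → S) →ₗ[S] A, g ∘ₗ t = h := by
  choose w hw using fun j : Fin c => hh (Pi.single j 1)
  refine ⟨(Pi.basisFun S (Fin c)).constr S w, ?_⟩
  apply (Pi.basisFun S (Fin c)).ext
  intro j
  rw [LinearMap.comp_apply, Module.Basis.constr_basis, hw, Pi.basisFun_apply]

lemma exists_htpy (F : Horr.FreeRes S M) (x : S) (hx : ∀ m : M, x • m = 0) :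
    Nonempty (Htpy F.rk (mat F) x) := by
  obtain ⟨t0, ht0⟩ := exists_lift_free (F.d 0)
    (x • (LinearMap.id : (Fin (F.rk 0) → S) →ₗ[S] (Fin (F.rk 0) → S))) (by
      intro v
      apply (F.exact_zero _).1
      rw [LinearMap.smul_apply, LinearMap.id_apply, map_smul, hx])
  have step : ∀ i (t : {t : (Fin (F.rk i) → S) →ₗ[S] (Fin (F.rk (i + 1)) → S) //
      F.d i ∘ₗ t ∘ₗ F.d i = x • F.d i}),
      ∃ t' : {t : (Fin (F.rk (i + 1)) → S) →ₗ[S] (Fin (F.rk (i + 2)) → S) //
        F.d (i + 1) ∘ₗ t ∘ₗ F.d (i + 1) = x • F.d (i + 1)},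
        F.d (i + 1) ∘ₗ t'.1 + t.1 ∘ₗ F.d i = x • LinearMap.id := by
    rintro i ⟨t, ht⟩
    obtain ⟨t', ht'⟩ := exists_lift_free (F.d (i + 1))
      (x • (LinearMap.id : (Fin (F.rk (i + 1)) → S) →ₗ[S] (Fin (F.rk (i + 1)) → S)) -
        t ∘ₗ F.d i) (by
      intro v
      apply (F.exact_succ i _).1
      have h1 := LinearMap.congr_fun ht v
      simp only [LinearMap.comp_apply, LinearMap.smul_apply] at h1
      simp only [LinearMap.sub_apply, LinearMap.smul_apply, LinearMap.id_apply,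
        LinearMap.comp_apply, map_sub, map_smul]
      rw [h1, sub_self])
    refine ⟨⟨t', ?_⟩, ?_⟩
    · rw [← LinearMap.comp_assoc, ht', LinearMap.sub_comp, LinearMap.comp_assoc,
        (F.exact_succ i).linearMap_comp_eq_zero, LinearMap.comp_zero, sub_zero,
        LinearMap.smul_comp, LinearMap.id_comp]
    · simp only
      rw [ht', sub_add_cancel]
  choose nxt hnxt using step
  have h0 : F.d 0 ∘ₗ t0 ∘ₗ F.d 0 = x • F.d 0 := by
    rw [← LinearMap.comp_assoc, ht0, LinearMap.smul_comp, LinearMap.id_comp]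
  let T : (i : ℕ) → {t : (Fin (F.rk i) → S) →ₗ[S] (Fin (F.rk (i + 1)) → S) //
      F.d i ∘ₗ t ∘ₗ F.d i = x • F.d i} := fun i => Nat.rec ⟨t0, h0⟩ (fun i t => nxt i t) i
  have hT : ∀ i, F.d (i + 1) ∘ₗ (T (i + 1)).1 + (T i).1 ∘ₗ F.d i = x • LinearMap.id :=
    fun i => hnxt i (T i)
  refine ⟨⟨fun i => LinearMap.toMatrix' (T i).1, ?_, fun i => ?_⟩⟩
  · rw [mat, ← LinearMap.toMatrix'_comp, show (T 0).1 = t0 from rfl, ht0, map_smul,
      LinearMap.toMatrix'_id]
  · rw [mat, mat, ← LinearMap.toMatrix'_comp, ← LinearMap.toMatrix'_comp, ← map_add, hT,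
      map_smul, LinearMap.toMatrix'_id]

/-- The homology of the resolution itself. -/
lemma Qt_base (F : Horr.FreeRes S M) (i : ℕ) :
    Qt F.rk (mat F) S i (Fin ((0 : ℕ).choose i) → M) := by
  cases i with
  | zero =>
    let e : M →ₗ[S] (Fin ((0 : ℕ).choose 0) → M) := LinearMap.pi fun _ => LinearMap.id
    have he : Function.Surjective e := by
      intro v
      refine ⟨v ⟨0, by simp⟩, ?_⟩
      funext j
      change v ⟨0, by simp⟩ = v j
      congr 1
      apply Fin.ext
      have := j.2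
      simp only [Nat.choose_self] at this
      simp only
      omega
    refine Qt.map ⟨F.aug ∘ₗ (Zc F.rk (mat F) S 0).subtype, ?_, ?_⟩ e he
    · intro m
      obtain ⟨v, hv⟩ := F.aug_surjective m
      exact ⟨⟨v, trivial⟩, hv⟩
    · rintro z ⟨y, hy⟩
      rw [LinearMap.comp_apply, Submodule.subtype_apply, ← hy, act_mat]
      exact F.exact_zero.apply_apply_eq_zero y
  | succ i =>
    have h0 : (0 : ℕ).choose (i + 1) = 0 := Nat.choose_zero_succ i
    have : IsEmpty (Fin ((0 : ℕ).choose (i + 1))) := by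
      rw [h0]
      infer_instance
    refine ⟨0, fun v => ⟨0, Subsingleton.elim _ _⟩, fun z _ => rfl⟩

/-- The initial ideals of a sequence. -/
def J (c : ℕ → S) (r : ℕ) : Ideal S := Ideal.span (c '' Set.Iio r)

lemma J_zero (c : ℕ → S) : J c 0 = ⊥ := by
  have : Set.Iio 0 = (∅ : Set ℕ) := by
    ext x
    simp
  rw [J, this, Set.image_empty, Ideal.span_empty]

lemma J_succ (c : ℕ → S) (r : ℕ) : J c (r + 1) = J c r ⊔ Ideal.span {c r} := by
  have : Set.Iio (r + 1) = Set.Iio r ∪ {r} := by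
    ext x
    simp only [Set.mem_Iio, Set.mem_union, Set.mem_singleton_iff]
    omega
  rw [J, J, this, Set.image_union, Set.image_singleton, Ideal.span_union]

lemma J_le_succ (c : ℕ → S) (r : ℕ) : J c r ≤ J c (r + 1) := by
  rw [J_succ]
  exact le_sup_left

lemma mem_J (c : ℕ → S) {r j : ℕ} (h : j < r) : c j ∈ J c r :=
  Ideal.subset_span ⟨j, h, rfl⟩

/-- The projection between consecutive quotients. -/
def pj (c : ℕ → S) (r : ℕ) : (S ⧸ J c r) →ₗ[S] (S ⧸ J c (r + 1)) :=
  (J c r).mapQ (J c (r + 1)) LinearMap.id (J_le_succ c r)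

lemma pj_mk (c : ℕ → S) (r : ℕ) (s : S) :
    pj c r (Submodule.Quotient.mk s) = Submodule.Quotient.mk s := rfl

lemma pj_surjective (c : ℕ → S) (r : ℕ) : Function.Surjective (pj c r) := by
  intro n
  obtain ⟨s, rfl⟩ := Submodule.Quotient.mk_surjective _ n
  exact ⟨Submodule.Quotient.mk s, rfl⟩

lemma pj_ker (c : ℕ → S) (r : ℕ) (n : S ⧸ J c r) (h : pj c r n = 0) : ∃ n', n = c r • n' := by
  obtain ⟨s, rfl⟩ := Submodule.Quotient.mk_surjective _ n
  rw [pj_mk, Submodule.Quotient.mk_eq_zero, J_succ, Submodule.mem_sup] at h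
  obtain ⟨a, ha, b, hb, hab⟩ := h
  rw [Ideal.mem_span_singleton'] at hb
  obtain ⟨t, rfl⟩ := hb
  refine ⟨Submodule.Quotient.mk t, ?_⟩
  rw [← Submodule.Quotient.mk_smul, Submodule.Quotient.eq, ← hab, smul_eq_mul,
    mul_comm (c r) t, add_sub_cancel_right]
  exact ha

lemma pj_smul (c : ℕ → S) (r : ℕ) (n : S ⧸ J c r) : pj c r (c r • n) = 0 := by
  obtain ⟨s, rfl⟩ := Submodule.Quotient.mk_surjective _ n
  rw [← Submodule.Quotient.mk_smul, pj_mk, Submodule.Quotient.mk_eq_zero, smul_eq_mul]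
  exact Ideal.mul_mem_right _ _ (mem_J c (Nat.lt_succ_self r))

lemma reg_quot {c : ℕ → S} {r : ℕ} (h : ∀ s, c r * s ∈ J c r → s ∈ J c r) (n : S ⧸ J c r)
    (hn : c r • n = 0) : n = 0 := by
  obtain ⟨s, rfl⟩ := Submodule.Quotient.mk_surjective _ n
  rw [← Submodule.Quotient.mk_smul, Submodule.Quotient.mk_eq_zero] at hn
  rw [Submodule.Quotient.mk_eq_zero]
  exact h s hn

lemma Qt_cast {rk : ℕ → ℕ} {D : (i : ℕ) → Matrix (Fin (rk i)) (Fin (rk (i + 1))) S}
    {N : Type*} [AddCommGroup N] [Module S N] {i a b : ℕ} (hab : a = b)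
    (h : Qt rk D N i (Fin a → M)) : Qt rk D N i (Fin b → M) := by
  subst hab
  exact h

/-- The homology of the resolution with coefficients in `S / (c_0, …, c_(r-1))`. -/
theorem Qt_main (F : Horr.FreeRes S M) (c : ℕ → S) (m : ℕ)
    (hkill : ∀ r < m, ∀ y : M, c r • y = 0)
    (hreg : ∀ r < m, ∀ s, c r * s ∈ J c r → s ∈ J c r) (r : ℕ) (hr : r ≤ m) :
    ∀ i, Qt F.rk (mat F) (S ⧸ J c r) i (Fin (r.choose i) → M) := by
  induction r with
  | zero =>
    intro i
    exact (Qt_base F i).equiv (Submodule.quotEquivOfEqBot (J c 0) (J_zero c))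
  | succ r ih =>
    have ih' := ih (by omega)
    obtain ⟨H⟩ := exists_htpy F (c r) (hkill r (by omega))
    intro i
    cases i with
    | zero =>
      exact Qt_cast (by simp) (Qt.step_zero H (pj c r) (pj_surjective c r) (pj_ker c r) (ih' 0))
    | succ i =>
      have h1 := Qt.step_succ (mat_mul F) H (pj c r) (pj_surjective c r) (pj_ker c r)
        (pj_smul c r) (reg_quot (hreg r (by omega))) i (ih' (i + 1)) (ih' i)
      have h2 : (r + 1).choose (i + 1) = r.choose (i + 1) + r.choose i := by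
        rw [Nat.choose_succ_succ' r i, add_comm]
      let e : ((Fin (r.choose (i + 1)) → M) × (Fin (r.choose i) → M)) ≃ₗ[S]
          (Fin (r.choose (i + 1) + r.choose i) → M) :=
        (LinearEquiv.sumArrowLequivProdArrow _ _ S M).symm.trans
          (LinearEquiv.funCongrLeft S M finSumFinEquiv.symm)
      exact Qt_cast h2.symm (h1.map e.toLinearMap e.surjective)

end res

end ACI29
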